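import Pool.Agent.H30.TauG

set_option autoImplicit false

namespace Pool.Agent.Results.MP_24a1d9_gt.FinOT

open Pool.Agent.H30.Tau Cardinal

/-- Under the continuum hypothesis `S_fin(Ω, T)` is not preserved under squares. -/
theorem result (hc : (𝔠 : Cardinal.{0}) = ℵ₁) :
    ∃ X : Set ℝ, Sfin (Z := X) Om Ta ∧ ¬ Sfin (Z := Fin 2 → X) Om Ta :=
  let ⟨X, h1, _, _, _, h2⟩ := tower_real hc
  ⟨X, h1, fun h => h2 h.ch⟩

end Pool.Agent.Results.MP_24a1d9_gt.FinOT
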