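import Pool.Agent.H30.TauC

set_option autoImplicit false

namespace Pool.Agent.Results.MP_24a1d9_gt.OneOT

open Pool.Agent.H30.Tau

/-- `S₁(Ω, T)` is preserved under finite powers. -/
theorem result (X : Set ℝ) (h : S1 (Z := X) Om Ta) (k : ℕ) : S1 (Z := Fin k → X) Om Ta :=
  ((s1_OT h).ch.pow k).s1og.mono (fun _ => id) fun _ => Ga.ta

end Pool.Agent.Results.MP_24a1d9_gt.OneOT
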